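import Pool.Agent.Helper95.AG.Defs
import Pool.Agent.Helper83.AF.Lv

/-! # Project AG, block LVB': from the levels to the interface -/

set_option autoImplicit false
open MeasureTheory Real Set Filter Topology
open scoped ENNReal

namespace Pool.Agent.Helper83.AG

open Pool.Agent.Helper18.UC (nn LL sqo rep toT)
open Pool.Agent.Helper46.QP (TT Td)
open Pool.Agent.Helper82.AN (Ik Ow lawL wt bas eta Hw sq SepR)
open Pool.Agent.Helper95.AF (st po pM shb tst Fa gA nv ip bad Den rr un frc DC Ho)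
open Pool.Agent.Helper95.AG
open Pool.Agent.Helper83.AF (vol_of_den)

variable {d : ℕ}

theorem pp_pos {h P : ℝ} (hh : 0 < h) (hh1 : h ≤ 1 / 200) (hP : 0 < P) (hP1 : P ≤ h / 100) (i : ℕ) :
    0 < pp h P i ∧ pp h P i ≤ 1 := by
  induction i with
  | zero =>
    have e : pp h P 0 = P := rfl
    rw [e]
    exact ⟨hP, by linarith⟩
  | succ i ih =>
    obtain ⟨h1, h2⟩ := ih
    have h3 : 0 < et h i := by unfold et; positivity
    have h4 : et h i ≤ 1 := by
      unfold et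
      rw [div_le_one (by positivity)]
      have : (1 : ℝ) ≤ 2 ^ i := one_le_pow₀ (by norm_num)
      linarith
    have e : pp h P (i + 1) = pp h P i * et h i / 16 := rfl
    rw [e]
    refine ⟨by positivity, ?_⟩
    have h5 : pp h P i * et h i ≤ 1 * 1 := mul_le_mul h2 h4 h3.le zero_le_one
    linarith

/-- **LVB'** -/
theorem lv_of
    (rr_mem_of : ∀ {a : ℝ} {n : ℕ} {ρ δ cap : ℝ} (_ : 0 ≤ cap) (_ : 0 ≤ δ) (b : ℕ → ℝ),
      0 ≤ rr a n ρ δ cap b ∧ rr a n ρ δ cap b ≤ cap ∧ Den a b n ρ δ (rr a n ρ δ cap b))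
    (rr_meas_of : ∀ (a : ℝ) (n : ℕ) {ρ δ cap : ℝ} (_ : 0 ≤ cap) (_ : 0 ≤ δ), Measurable (rr a n ρ δ cap))
    {h P : ℝ} (hh : 0 < h) (hh1 : h ≤ 1 / 200) (hP : 0 < P) (hP1 : P ≤ h / 100) {α : Td d} {a L : ℝ} {b : Td d → ℝ}
    (hb : Continuous b) (hL : 100 < L) (hL1 : 1 / h ≤ L) (ha : |Real.log |a| - L| ≤ 1)
    {n : ℕ → ℕ} (hn : ∀ i : ℕ, Real.exp ((i : ℝ) + 1) ≤ pp h P i * n i)
    (hR : ∀ i, (1 - 8 * h) * n i * L ≤ ∫ θ, Rl h P a L i (n i) (sq α b θ)) : Lv (9 * h) α a b := by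
  intro ε hε n₀
  set i : ℕ := max n₀ ⌈4 / ε⌉₊ with hi
  have hi1 : n₀ ≤ i := le_max_left _ _
  have hi2 : 4 / ε ≤ i := (Nat.le_ceil _).trans (by exact_mod_cast le_max_right _ _)
  obtain ⟨hp0, hp1⟩ := pp_pos hh hh1 hP hP1 i
  have hni := hn i
  have hexp := Real.add_one_le_exp ((i : ℝ) + 1)
  have hn0 : (0 : ℝ) ≤ n i := Nat.cast_nonneg _
  have hpn : (i : ℝ) + 2 ≤ pp h P i * n i := by linarith
  have hni2 : (i : ℝ) + 2 ≤ n i := by
    have : pp h P i * n i ≤ 1 * n i := mul_le_mul_of_nonneg_right hp1 hn0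
    linarith
  have hni3 : i ≤ n i := by
    have : (i : ℝ) ≤ n i := by linarith
    exact_mod_cast this
  have hL0 : 0 < L := by linarith
  have hcap : 0 ≤ 2 * (n i : ℝ) * L := by positivity
  have hδ : 0 ≤ Real.exp (-(2 * pp h P i * n i * L)) := (Real.exp_pos _).le
  have hmeas : Measurable fun θ => sq α b θ :=
    measurable_pi_lambda _ fun j => (hb.comp (continuous_id.add continuous_const)).measurable
  refine ⟨n i, hi1.trans hni3, fun θ => Rl h P a L i (n i) (sq α b θ), ?_, ?_, ⟨2 * n i * L, ?_⟩, ?_, ?_⟩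
  · exact (rr_meas_of a (n i) hcap hδ).comp hmeas
  · exact fun θ => (rr_mem_of hcap hδ (sq α b θ)).1
  · exact fun θ => (rr_mem_of hcap hδ (sq α b θ)).2.1
  · intro θ
    have h1 := (rr_mem_of (a := a) (n := n i) (ρ := Real.exp (-(pp h P i * n i * L))) hcap hδ (sq α b θ)).2.2
    have h2 := vol_of_den (Real.exp_pos _) (Real.exp_le_one_iff.2 (by
      have : 0 ≤ pp h P i * n i * L := by positivity
      linarith)) hδ h1
    refine le_trans h2 (ENNReal.ofReal_le_ofReal ?_)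
    have h3 : (i : ℝ) ≤ 2 * pp h P i * n i * L := by
      have h4 : ((i : ℝ) + 2) * 1 ≤ pp h P i * n i * (2 * L) := mul_le_mul hpn (by linarith) zero_le_one (by positivity)
      nlinarith
    have h4 : Real.exp (-(2 * pp h P i * n i * L)) ≤ Real.exp (-(i : ℝ)) := Real.exp_le_exp.2 (by linarith)
    have h5 : 4 / ε ≤ Real.exp i := hi2.trans (by linarith [Real.add_one_le_exp (i : ℝ)])
    have h6 : Real.exp (-(i : ℝ)) * Real.exp i = 1 := by rw [← Real.exp_add, neg_add_cancel, Real.exp_zero]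
    have h7 : 4 ≤ ε * Real.exp i := by
      rw [div_le_iff₀ hε] at h5
      linarith
    have h8 : 0 < Real.exp (-(i : ℝ)) := Real.exp_pos _
    have h9 : 4 * Real.exp (-(i : ℝ)) ≤ ε := by
      calc 4 * Real.exp (-(i : ℝ)) ≤ (ε * Real.exp i) * Real.exp (-(i : ℝ)) := mul_le_mul_of_nonneg_right h7 h8.le
        _ = ε * (Real.exp (-(i : ℝ)) * Real.exp i) := by ring
        _ = ε := by rw [h6, mul_one]
    linarith
  · refine le_trans ?_ (hR i)
    have h1 := (abs_le.1 ha).2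
    have h3 : 1 ≤ h * L := by
      rw [div_le_iff₀ hh] at hL1
      linarith
    have h4 : (1 - 9 * h) * Real.log |a| ≤ (1 - 9 * h) * (L + 1) := mul_le_mul_of_nonneg_left (by linarith) (by linarith)
    have h2 : (1 - 9 * h) * Real.log |a| ≤ (1 - 8 * h) * L := by linarith
    calc (1 - 9 * h) * (n i : ℝ) * Real.log |a| = n i * ((1 - 9 * h) * Real.log |a|) := by ring
      _ ≤ n i * ((1 - 8 * h) * L) := mul_le_mul_of_nonneg_left h2 hn0
      _ = (1 - 8 * h) * n i * L := by ring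

end Pool.Agent.Helper83.AG
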