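import Pool.Agent.Helper95.AG.Defs
import Pool.Agent.Helper83.AF.FX

/-! # Project AG, block FX': large exponents almost everywhere on the whole space -/

set_option autoImplicit false
open MeasureTheory Real Set Filter Topology
open scoped ENNReal

namespace Pool.Agent.Helper83.AG

open Pool.Agent.Helper18.UC (nn LL sqo rep toT)
open Pool.Agent.Helper46.QP (TT Td)
open Pool.Agent.Helper82.AN (sq)
open Pool.Agent.Helper95.AF (tst Fa gA)
open Pool.Agent.Helper95.AG
open Pool.Agent.Helper83.AF (log_gA_le measurable_gA tst_mp)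

variable {d : ℕ}

/-- **FX'** -/
theorem fin_exp {κ : ℝ} {α : Td d} (hind : ∀ k : Fin d → ℤ, k ≠ 0 → ∑ m, k m • α m ≠ 0) {a : ℝ} (ha : 10 ≤ |a|) {b : Td d → ℝ}
    (hb : Continuous b) (h : Lv κ α a b) {lam : Td d × TT → ℝ} (hm : Measurable lam)
    (hinv : ∀ᵐ p, lam (Fa α a b p) = lam p)
    (hl : ∀ᵐ p, Tendsto (fun n : ℕ => Real.log (gA α a b n p) / n) atTop (𝓝 (lam p))) :
    ∀ᵐ p, (1 - κ) * Real.log |a| ≤ lam p := by
  have hk : ∀ k : ℕ, ∃ N ≥ k + 1, ∃ r : Td d → ℝ, Measurable r ∧ (∀ θ, 0 ≤ r θ) ∧ (∃ K, ∀ θ, r θ ≤ K) ∧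
      (∀ θ, volume {z : TT | Real.log (gA α a b N (θ, z)) < r θ} ≤ ENNReal.ofReal (1 / ((k : ℝ) + 2))) ∧
      (1 - κ) * N * Real.log |a| ≤ ∫ θ, r θ := fun k => h (1 / ((k : ℝ) + 2)) (by positivity) (k + 1)
  choose N hN r hrm hr0 hrK hrv hri using hk
  have hN0 : ∀ k, (0 : ℝ) < N k := fun k => by
    have : 0 < N k := by have := hN k; omega
    exact_mod_cast this
  have hN1 : ∀ k, (1 : ℝ) ≤ N k := fun k => by
    have : 1 ≤ N k := by have := hN k; omega
    exact_mod_cast this
  have hlog2 : 0 ≤ Real.log 2 := Real.log_nonneg (by norm_num)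
  have hLL : 4 ≤ LL a := by
    unfold LL
    have : 0 ≤ 2 * π * |a| := by positivity
    linarith
  have hlogLL : 0 ≤ Real.log (LL a) := Real.log_nonneg (by linarith)
  set C : ℝ := Real.log 2 + Real.log (LL a) with hC
  have hG0 : ∀ k p, 0 ≤ Real.log (gA α a b (N k) p) / N k := fun k p => div_nonneg (log_gA_le α a b (N k) p).1 (hN0 k).le
  have hGC : ∀ k p, Real.log (gA α a b (N k) p) / N k ≤ C := by
    intro k p
    rw [div_le_iff₀ (hN0 k)]
    refine (log_gA_le α a b (N k) p).2.trans ?_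
    have h1 : Real.log 2 * 1 ≤ Real.log 2 * N k := mul_le_mul_of_nonneg_left (hN1 k) hlog2
    rw [hC]
    linarith
  have hbad : ∀ k θ, volume {z : TT | Real.log (gA α a b (N k) (θ, z)) / N k < r k θ / N k} ≤
      ENNReal.ofReal (1 / ((k : ℝ) + 2)) := by
    intro k θ
    refine le_trans (measure_mono fun z hz => ?_) (hrv k θ)
    exact (div_lt_div_iff_of_pos_right (hN0 k)).1 hz
  refine Pool.Agent.Helper18.AF.main (ν := (volume : Measure (Td d))) (μ := (volume : Measure TT))
    (Pool.Agent.Helper82.QP.rot_erg hind) (S := fun θ => tst a (b θ)) (fun θ => tst_mp a (b θ)) hm hinv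
    (G := fun k p => Real.log (gA α a b (N k) p) / N k) (fun k => (Real.measurable_log.comp (measurable_gA α a hb (N k))).div_const _)
    (C := C) (fun k p => by rw [abs_of_nonneg (hG0 k p)]; exact hGC k p) hG0 ?_
    (rr := fun k θ => r k θ / N k) (fun k => (hrm k).div_const _) (fun k θ => div_nonneg (hr0 k θ) (hN0 k).le) (Cr := C) ?_
    (dl := fun k => 1 / ((k : ℝ) + 2)) ?_ (fun k => by positivity) (fun k => Eventually.of_forall (hbad k)) ?_
  · have hNt : Tendsto N atTop atTop := tendsto_atTop_mono (fun k => (Nat.le_succ k).trans (hN k)) tendsto_id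
    filter_upwards [hl] with p hp
    exact hp.comp hNt
  · intro k θ
    by_contra hc
    have hc := not_le.1 hc
    have h1 : {z : TT | Real.log (gA α a b (N k) (θ, z)) / N k < r k θ / N k} = univ := by
      ext z
      simp only [mem_setOf_eq, mem_univ, iff_true]
      exact lt_of_le_of_lt (hGC k (θ, z)) hc
    have h2 := hbad k θ
    rw [h1, measure_univ] at h2
    have h3 : ENNReal.ofReal (1 / ((k : ℝ) + 2)) < 1 := by
      rw [ENNReal.ofReal_lt_one, div_lt_one (by positivity)]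
      have : (0 : ℝ) ≤ k := Nat.cast_nonneg k
      linarith
    exact absurd h2 (not_le.2 h3)
  · have h1 : Tendsto (fun k : ℕ => 1 / (((k + 1 : ℕ) : ℝ) + 1)) atTop (𝓝 0) :=
      (tendsto_add_atTop_iff_nat 1).2 (tendsto_one_div_add_atTop_nhds_zero_nat (𝕜 := ℝ))
    refine h1.congr fun k => ?_
    push_cast
    congr 1
    ring
  · refine Eventually.of_forall fun k => ?_
    show (1 - κ) * Real.log |a| ≤ ∫ θ, r k θ / N k
    rw [integral_div, le_div_iff₀ (hN0 k)]
    refine le_trans (le_of_eq ?_) (hri k)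
    ring

end Pool.Agent.Helper83.AG
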